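import Mathlib

/-!
Choice of the parameters.
-/

namespace Pool.Agent.Helper32.ExpN

open Filter
open scoped Nat

theorem log_factorial_le (n : ℕ) : Real.log (n ! : ℝ) ≤ n * Real.log n := by
  rcases Nat.eq_zero_or_pos n with h | h
  · subst h; simp
  have h1 : ((n ! : ℕ) : ℝ) ≤ (n : ℝ) ^ n := by exact_mod_cast Nat.factorial_le_pow n
  have h2 := Real.log_le_log (by exact_mod_cast Nat.factorial_pos n) h1
  rwa [Real.log_pow] at h2

theorem log_factorial_pred_ge (p : ℕ) (hp : 1 ≤ p) :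
    p * Real.log p - p - Real.log p ≤ Real.log ((p - 1)! : ℝ) := by
  have hp0 : (0 : ℝ) < p := by exact_mod_cast hp
  have h1 := Real.pow_div_factorial_le_exp (p : ℝ) hp0.le p
  have hf : (0 : ℝ) < (p ! : ℝ) := by exact_mod_cast Nat.factorial_pos p
  have hf' : (0 : ℝ) < ((p - 1)! : ℝ) := by exact_mod_cast Nat.factorial_pos _
  have h2 := Real.log_le_log (by positivity) h1
  rw [Real.log_exp, Real.log_div (by positivity) hf.ne', Real.log_pow] at h2
  have h3 : (p ! : ℝ) = p * ((p - 1)! : ℝ) := by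
    rw [← Nat.mul_factorial_pred (by omega : p ≠ 0)]
    push_cast
    ring
  rw [h3, Real.log_mul hp0.ne' hf'.ne'] at h2
  linarith

theorem le_exp_of_log_le {x y : ℝ} (hx : 0 < x) (h : Real.log x ≤ y) : x ≤ Real.exp y := by
  rw [← Real.exp_log hx]
  exact Real.exp_le_exp.mpr h

/-- The estimates of the two sizes in terms of `τ = p log p`. -/
theorem sizes (d r : ℕ) (γ : ℝ) (hγ0 : 0 < γ) (hγ : γ ≤ 1 / (8 * ((d : ℝ) + 1) ^ 2)) :
    ∃ c0 : ℝ, ∀ p : ℕ, 1 ≤ p → c0 ≤ Real.log p → ∀ G : ℕ, 1 ≤ G → (G : ℝ) ≤ (p : ℝ) ^ γ →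
      (((d + 1) * p)! : ℝ) * (1 + G) ^ ((d + 1) * p) / ((p - 1)! : ℝ) ≤
        Real.exp ((d + 1 / 4) * (p * Real.log p)) ∧
      Real.exp G * (G : ℝ) ^ ((d + 1) * p) / ((p - 1)! : ℝ) ≤
        Real.exp (-((1 - 1 / (4 * ((d : ℝ) + 1))) * (p * Real.log p))) ∧
      (Real.exp G * (G : ℝ) ^ r) ^ (r + 1) ≤ Real.exp (p * Real.log p / 8) ∧
      (G : ℝ) ≤ p ∧ 8 ≤ Real.log p := by
  set u : ℝ := (d : ℝ) + 1 with hu
  have hu1 : 1 ≤ u := by rw [hu]; have : (0 : ℝ) ≤ d := by positivity
                         linarith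
  have hlogu : 0 ≤ Real.log u := Real.log_nonneg hu1
  have hlog2 : 0 ≤ Real.log 2 := Real.log_nonneg (by norm_num)
  refine ⟨24 * u + 8 * (u * Real.log u + u * Real.log 2 + 2) + 8 * (r + 1) ^ 2, ?_⟩
  intro p hp hL G hG1 hG
  set L : ℝ := Real.log p with hLdef
  have hp0 : (0 : ℝ) < p := by exact_mod_cast hp
  have hG1' : (1 : ℝ) ≤ G := by exact_mod_cast hG1
  have hγu : u * γ ≤ 1 / (8 * u) := by
    calc u * γ ≤ u * (1 / (8 * u ^ 2)) := mul_le_mul_of_nonneg_left hγ (by linarith)
      _ = 1 / (8 * u) := by field_simp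
  have hγu8 : u * γ ≤ 1 / 8 := by
    refine hγu.trans ?_
    apply one_div_le_one_div_of_le (by norm_num)
    linarith
  have hγ1 : γ ≤ 1 := by nlinarith
  have hterms : 0 ≤ u * Real.log u + u * Real.log 2 := by positivity
  have hr0 : (0 : ℝ) ≤ 8 * ((r : ℝ) + 1) ^ 2 := by positivity
  have hL24 : 24 * u ≤ L := by linarith
  have hL8 : 8 * (u * Real.log u + u * Real.log 2 + 2) ≤ L := by linarith
  have hLr : 8 * ((r : ℝ) + 1) ^ 2 ≤ L := by linarith
  have hL0 : 0 ≤ L := by linarith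
  have hLp : L ≤ p := by
    have := Real.log_le_sub_one_of_pos hp0
    linarith
  have hlogG : Real.log G ≤ γ * L := by
    have := Real.log_le_log (by linarith) hG
    rwa [Real.log_rpow hp0] at this
  have hlogG0 : 0 ≤ Real.log G := Real.log_nonneg hG1'
  have hp1 : (1 : ℝ) ≤ p := by exact_mod_cast hp
  have hGp : (G : ℝ) ≤ p := by
    refine hG.trans ?_
    calc (p : ℝ) ^ γ ≤ (p : ℝ) ^ (1 : ℝ) := Real.rpow_le_rpow_of_exponent_le hp1 hγ1
      _ = p := Real.rpow_one _
  have hf' : (0 : ℝ) < ((p - 1)! : ℝ) := by exact_mod_cast Nat.factorial_pos _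
  have hfp := log_factorial_pred_ge p hp
  have hcast : (((d + 1) * p : ℕ) : ℝ) = u * p := by push_cast; rfl
  have hτ0 : 0 ≤ p * L := by positivity
  refine ⟨?_, ?_, ?_, hGp, by linarith⟩
  · have hfu : (0 : ℝ) < (((d + 1) * p)! : ℝ) := by exact_mod_cast Nat.factorial_pos _
    apply le_exp_of_log_le (by positivity)
    rw [Real.log_div (by positivity) hf'.ne', Real.log_mul hfu.ne' (by positivity), Real.log_pow]
    have h1 := log_factorial_le ((d + 1) * p)
    rw [hcast] at h1 ⊢
    rw [Real.log_mul (by linarith) hp0.ne'] at h1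
    have h2 : Real.log (1 + (G : ℝ)) ≤ Real.log 2 + γ * L := by
      calc Real.log (1 + (G : ℝ)) ≤ Real.log (2 * G) := Real.log_le_log (by linarith) (by linarith)
        _ = Real.log 2 + Real.log G := Real.log_mul (by norm_num) (by linarith)
        _ ≤ _ := by linarith
    have h3 : u * p * Real.log (1 + (G : ℝ)) ≤ u * p * (Real.log 2 + γ * L) :=
      mul_le_mul_of_nonneg_left h2 (by positivity)
    have h4 : u * γ * (p * L) ≤ 1 / 8 * (p * L) := mul_le_mul_of_nonneg_right hγu8 hτ0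
    have h5 : p * (8 * (u * Real.log u + u * Real.log 2 + 2)) ≤ p * L :=
      mul_le_mul_of_nonneg_left hL8 hp0.le
    have h6 : u * p * (Real.log u + L) + u * p * (Real.log 2 + γ * L) - (p * L - p - L) ≤
        (d + 1 / 4) * (p * L) := by
      have : (d : ℝ) = u - 1 := by rw [hu]; ring
      rw [this]
      nlinarith
    linarith
  · apply le_exp_of_log_le (by positivity)
    rw [Real.log_div (by positivity) hf'.ne', Real.log_mul (by positivity) (by positivity),
      Real.log_pow, Real.log_exp, hcast]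
    have h1 : u * p * Real.log G ≤ u * p * (γ * L) :=
      mul_le_mul_of_nonneg_left hlogG (by positivity)
    have h2 : u * γ * (p * L) ≤ 1 / (8 * u) * (p * L) := mul_le_mul_of_nonneg_right hγu hτ0
    have h3 : 3 * (p : ℝ) ≤ 1 / (8 * u) * (p * L) := by
      rw [div_mul_eq_mul_div, one_mul, le_div_iff₀ (by linarith)]
      nlinarith
    have h4 : -((1 - 1 / (4 * u)) * (p * L)) = -(p * L) + 2 * (1 / (8 * u) * (p * L)) := by
      field_simp
      ring
    rw [h4]
    nlinarith
  · apply le_exp_of_log_le (by positivity)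
    rw [Real.log_pow, Real.log_mul (by positivity) (by positivity), Real.log_exp, Real.log_pow]
    push_cast
    have h1 : Real.log G ≤ p := by
      calc Real.log G ≤ γ * L := hlogG
        _ ≤ 1 * L := mul_le_mul_of_nonneg_right hγ1 hL0
        _ ≤ p := by linarith
    have hr : (0 : ℝ) ≤ r := by positivity
    have h2 : ((r : ℝ) + 1) * (G + r * Real.log G) ≤ (r + 1) * (p + r * p) := by
      apply mul_le_mul_of_nonneg_left _ (by positivity)
      apply add_le_add hGp
      exact mul_le_mul_of_nonneg_left h1 hr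
    have h3 : p * (8 * ((r : ℝ) + 1) ^ 2) ≤ p * L := mul_le_mul_of_nonneg_left hLr hp0.le
    nlinarith

/-- A prime of the right size. -/
theorem exists_prime_size (η : ℝ) (hη : 0 < η) : ∀ᶠ N : ℕ in atTop, ∃ p : ℕ, p.Prime ∧
    (N : ℝ) ≤ (p : ℝ) ^ 2 ∧ η * N / 2 ≤ p * Real.log p ∧ p * Real.log p ≤ 2 * η * N := by
  have hcast : Tendsto (fun N : ℕ => (N : ℝ)) atTop atTop := tendsto_natCast_atTop_atTop
  have ev1 : ∀ᶠ N : ℕ in atTop, Real.log N ≤ η * Real.sqrt N := by
    have h1 := (isLittleO_log_rpow_atTop (by norm_num : (0 : ℝ) < 1 / 2)).bound hη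
    filter_upwards [hcast.eventually h1, hcast.eventually_ge_atTop 1] with N hN hN1
    rw [Real.norm_of_nonneg (Real.log_nonneg hN1), Real.norm_of_nonneg (by positivity),
      ← Real.sqrt_eq_rpow] at hN
    exact hN
  have ev2 : ∀ᶠ N : ℕ in atTop, 2 * η ≤ Real.log N :=
    (Real.tendsto_log_atTop.comp hcast).eventually_ge_atTop (2 * η)
  filter_upwards [ev1, ev2, hcast.eventually_ge_atTop 2] with N h1 h2 h3
  have hN0 : (0 : ℝ) < N := by linarith
  have hlogpos : 0 < Real.log N := Real.log_pos (by linarith)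
  have hsq : Real.sqrt N * Real.sqrt N = N := Real.mul_self_sqrt hN0.le
  have hsq1 : 1 ≤ Real.sqrt N := by
    rw [Real.one_le_sqrt]; linarith
  have hmain : Real.sqrt N ≤ η * N / Real.log N := by
    rw [le_div_iff₀ hlogpos]
    calc Real.sqrt N * Real.log N ≤ Real.sqrt N * (η * Real.sqrt N) :=
          mul_le_mul_of_nonneg_left h1 (by linarith)
      _ = η * N := by rw [← mul_assoc, mul_comm (Real.sqrt N) η, mul_assoc, hsq]
  have hK : ⌊η * N / Real.log N⌋₊ ≠ 0 := by
    have : 1 ≤ ⌊η * N / Real.log N⌋₊ := by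
      rw [Nat.one_le_floor_iff]
      linarith
    omega
  obtain ⟨p, hp, hp1, hp2⟩ := Nat.exists_prime_lt_and_le_two_mul _ hK
  have hpl : η * N / Real.log N < p := by
    have := Nat.lt_floor_add_one (η * N / Real.log N)
    have h4 : ((⌊η * N / Real.log N⌋₊ + 1 : ℕ) : ℝ) ≤ p := by exact_mod_cast hp1
    push_cast at h4
    linarith
  have hpu : (p : ℝ) ≤ 2 * (η * N / Real.log N) := by
    have h4 : (p : ℝ) ≤ 2 * (⌊η * N / Real.log N⌋₊ : ℝ) := by exact_mod_cast hp2
    have h5 : (⌊η * N / Real.log N⌋₊ : ℝ) ≤ η * N / Real.log N :=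
      Nat.floor_le (by positivity)
    linarith
  have hsp : Real.sqrt N ≤ p := hmain.trans hpl.le
  have hp0 : (0 : ℝ) < p := by linarith
  refine ⟨p, hp, ?_, ?_, ?_⟩
  · rw [← hsq, sq]
    exact mul_le_mul hsp hsp (by linarith) hp0.le
  · have h4 : Real.log N / 2 ≤ Real.log p := by
      rw [← Real.log_sqrt hN0.le]
      exact Real.log_le_log (by linarith) hsp
    calc η * N / 2 = η * N / Real.log N * (Real.log N / 2) := by field_simp
      _ ≤ p * Real.log p := by
        apply mul_le_mul hpl.le h4 (by positivity) hp0.le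
  · have h5 : (p : ℝ) ≤ N := by
      refine hpu.trans ?_
      rw [← mul_div_assoc, div_le_iff₀ hlogpos]
      nlinarith
    have h6 : Real.log p ≤ Real.log N := Real.log_le_log hp0 h5
    have h7 : 0 ≤ Real.log p := Real.log_nonneg (by linarith)
    calc p * Real.log p ≤ 2 * (η * N / Real.log N) * Real.log N := by
          apply mul_le_mul hpu h6 h7 (by positivity)
      _ = 2 * η * N := by field_simp

/-- All parameters together. -/
theorem params (r : ℕ) (A ε : ℝ) (hA : 0 ≤ A) (hε : 0 < ε) :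
    ∃ d : ℕ, r + 2 ≤ d + 1 ∧ ∃ γ : ℝ, 0 < γ ∧ γ < 1 ∧ ∀ᶠ N : ℕ in atTop, ∀ G : ℕ, 1 ≤ G →
      (G : ℝ) ≤ (N : ℝ) ^ γ → ∃ p : ℕ, p.Prime ∧ G < p ∧ ∃ Q I : ℝ, 1 ≤ Q ∧
        (((d + 1) * p)! : ℝ) * (1 + G) ^ ((d + 1) * p) / ((p - 1)! : ℝ) ≤ Q ∧
        Real.exp G * (G : ℝ) ^ ((d + 1) * p) / ((p - 1)! : ℝ) ≤ I ∧ I ≤ 1 ∧
        ((d + 1)! : ℝ) * ((2 * Real.exp ((A + 1) * N)) * ((Real.exp G * (G : ℝ) ^ r) ^ (r + 1) *
          I ^ (d + 1 - (r + 2))) + (d + 1) * (Q * ((2 * Real.exp G * Real.exp (-(ε * N))) *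
          ((Real.exp G * (G : ℝ) ^ r) ^ (r + 1) * I ^ (d + 1 - (r + 2) - 1))))) < 1 := by
  set η : ℝ := ε / (2 * (r + 3)) with hη
  have hη0 : 0 < η := by positivity
  set v : ℕ := ⌈2 * (A + 1) / η⌉₊ + 2 with hv
  set d : ℕ := v + r + 1 with hd
  set u : ℝ := (d : ℝ) + 1 with hu
  have hdv : d + 1 - (r + 2) = v := by omega
  have hu0 : 0 < u := by positivity
  set γ' : ℝ := 1 / (8 * u ^ 2) with hγ'
  have hγ'0 : 0 < γ' := by positivity
  obtain ⟨c0, hc0⟩ := sizes d r γ' hγ'0 le_rfl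
  refine ⟨d, by omega, γ' / 2, by positivity, ?_, ?_⟩
  · have : γ' ≤ 1 / 8 := by
      rw [hγ']
      apply one_div_le_one_div_of_le (by norm_num)
      have : 1 ≤ u := by rw [hu]; have : (0 : ℝ) ≤ d := by positivity
                         linarith
      nlinarith
    linarith
  have hcast : Tendsto (fun N : ℕ => (N : ℝ)) atTop atTop := tendsto_natCast_atTop_atTop
  set F : ℝ := Real.log (2 * u * ((d + 1)! : ℝ)) with hF
  have ev1 : ∀ᶠ N : ℕ in atTop, 2 * c0 ≤ Real.log N :=
    (Real.tendsto_log_atTop.comp hcast).eventually_ge_atTop _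
  have ev2 : ∀ᶠ N : ℕ in atTop, (4 * (1 + |F|)) / (η / 2) ≤ (N : ℝ) :=
    hcast.eventually_ge_atTop _
  filter_upwards [exists_prime_size η hη0, ev1, ev2, hcast.eventually_ge_atTop 1] with
    N hN h1 h2 h3
  intro G hG1 hG
  obtain ⟨p, hp, hNp, hτ1, hτ2⟩ := hN
  have hp0 : (0 : ℝ) < p := by exact_mod_cast hp.pos
  have hp1 : (1 : ℝ) ≤ p := by exact_mod_cast hp.one_le
  have hGp : (G : ℝ) ≤ (p : ℝ) ^ γ' := by
    refine hG.trans ?_
    calc (N : ℝ) ^ (γ' / 2) ≤ ((p : ℝ) ^ 2) ^ (γ' / 2) :=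
          Real.rpow_le_rpow (by positivity) hNp (by positivity)
      _ = (p : ℝ) ^ γ' := by
          rw [← Real.rpow_natCast, ← Real.rpow_mul hp0.le]
          congr 1
          push_cast
          ring
  have hLc0 : c0 ≤ Real.log p := by
    have := Real.log_le_log (by linarith) hNp
    rw [Real.log_pow] at this
    push_cast at this
    linarith
  obtain ⟨b1, b2, b3, b4, b5⟩ := hc0 p hp.one_le hLc0 G hG1 hGp
  set τ : ℝ := p * Real.log p with hτ
  have hτN : (4 * (1 + |F|)) ≤ τ := by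
    rw [div_le_iff₀ (by positivity)] at h2
    have : η * N / 2 = N * (η / 2) := by ring
    linarith
  have hF' : F ≤ |F| := le_abs_self F
  have hF0 : 0 ≤ |F| := abs_nonneg F
  have hτ0 : 0 ≤ τ := by linarith
  have h8p : 8 * p ≤ τ := by rw [hτ]; nlinarith
  have hG_lt : G < p := by
    have h4 : (G : ℝ) < p := by
      refine lt_of_le_of_lt hGp ?_
      have h5 : (1 : ℝ) < p := by exact_mod_cast hp.one_lt
      have h6 : γ' < 1 := by
        rw [hγ', div_lt_one (by positivity)]
        have : 1 ≤ u := by rw [hu]; have : (0 : ℝ) ≤ d := by positivity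
                           linarith
        nlinarith
      calc (p : ℝ) ^ γ' < (p : ℝ) ^ (1 : ℝ) := Real.rpow_lt_rpow_of_exponent_lt h5 h6
        _ = p := Real.rpow_one _
    exact_mod_cast h4
  set κ : ℝ := 1 - 1 / (4 * u) with hκ
  have hκ0 : 0 ≤ κ := by
    rw [hκ]
    have : 1 / (4 * u) ≤ 1 := by
      rw [div_le_one (by positivity)]
      have : 1 ≤ u := by rw [hu]; have : (0 : ℝ) ≤ d := by positivity
                         linarith
      linarith
    linarith
  refine ⟨p, hp, hG_lt, Real.exp ((d + 1 / 4) * τ), Real.exp (-(κ * τ)), ?_, b1, b2, ?_, ?_⟩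
  · apply Real.one_le_exp
    positivity
  · rw [← Real.exp_zero]
    apply Real.exp_le_exp.mpr
    have := mul_nonneg hκ0 hτ0
    linarith
  · rw [hdv]
    have hfac : (0 : ℝ) < ((d + 1)! : ℝ) := by exact_mod_cast Nat.factorial_pos _
    have hexpF : Real.exp F = 2 * u * ((d + 1)! : ℝ) := Real.exp_log (by positivity)
    have hvr : (v : ℝ) ≤ u := by
      rw [hu, hd]
      push_cast
      have : (0 : ℝ) ≤ r := by positivity
      linarith
    have hvu : (v : ℝ) / (4 * u) ≤ 1 / 4 := by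
      rw [div_le_iff₀ (by positivity)]
      linarith
    have hv1 : ((v - 1 : ℕ) : ℝ) = v - 1 := by
      rw [Nat.cast_sub (by omega)]
      simp
    have hvη : 2 * (A + 1) ≤ (v - 1) * η := by
      have h4 : 2 * (A + 1) / η ≤ ⌈2 * (A + 1) / η⌉₊ := Nat.le_ceil _
      rw [div_le_iff₀ hη0] at h4
      have h5 : (v : ℝ) = ⌈2 * (A + 1) / η⌉₊ + 2 := by rw [hv]; push_cast; rfl
      rw [h5]
      nlinarith
    have hvτ : (A + 1) * N ≤ (v - 1) * τ := by
      have h4 : (0 : ℝ) ≤ v - 1 := by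
        rw [← hv1]; positivity
      calc (A + 1) * N ≤ ((v - 1) * η / 2) * N := by
            apply mul_le_mul_of_nonneg_right _ (by linarith)
            linarith
        _ = (v - 1) * (η * N / 2) := by ring
        _ ≤ (v - 1) * τ := mul_le_mul_of_nonneg_left hτ1 h4
    have hkv : (v : ℝ) * κ * τ ≥ v * τ - τ / 4 := by
      rw [hκ]
      have : (v : ℝ) * (1 - 1 / (4 * u)) * τ = v * τ - v / (4 * u) * τ := by ring
      rw [this]
      have := mul_le_mul_of_nonneg_right hvu hτ0
      linarith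
    have hκ1 : κ ≤ 1 := by
      rw [hκ]
      have : 0 ≤ 1 / (4 * u) := by positivity
      linarith
    have hkv1 : ((v : ℝ) - 1) * κ * τ ≥ (v - 1) * τ - τ / 4 := by
      have h4 : κ * τ ≤ τ := by nlinarith
      nlinarith
    -- the first term
    have t1 : ((d + 1)! : ℝ) * ((2 * Real.exp ((A + 1) * N)) *
        ((Real.exp G * (G : ℝ) ^ r) ^ (r + 1) * Real.exp (-(κ * τ)) ^ v)) ≤ Real.exp (-1) := by
      have e1 : ((d + 1)! : ℝ) * 2 ≤ Real.exp F := by
        rw [hexpF]
        have : 1 ≤ u := by rw [hu]; have : (0 : ℝ) ≤ d := by positivity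
                           linarith
        nlinarith
      calc ((d + 1)! : ℝ) * ((2 * Real.exp ((A + 1) * N)) *
          ((Real.exp G * (G : ℝ) ^ r) ^ (r + 1) * Real.exp (-(κ * τ)) ^ v))
          = (((d + 1)! : ℝ) * 2) * (Real.exp ((A + 1) * N) *
          ((Real.exp G * (G : ℝ) ^ r) ^ (r + 1) * Real.exp (-(κ * τ)) ^ v)) := by ring
        _ ≤ Real.exp F * (Real.exp ((A + 1) * N) *
          (Real.exp (τ / 8) * Real.exp (-(κ * τ)) ^ v)) := by
            apply mul_le_mul e1 _ (by positivity) (by positivity)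
            apply mul_le_mul_of_nonneg_left _ (by positivity)
            exact mul_le_mul_of_nonneg_right b3 (by positivity)
        _ = Real.exp (F + ((A + 1) * N + (τ / 8 + v * (-(κ * τ))))) := by
            rw [Real.exp_add, Real.exp_add, Real.exp_add, Real.exp_nat_mul]
        _ ≤ Real.exp (-1) := by
            apply Real.exp_le_exp.mpr
            nlinarith
    have t2 : ((d + 1)! : ℝ) * ((d + 1) * (Real.exp ((d + 1 / 4) * τ) *
        ((2 * Real.exp G * Real.exp (-(ε * N))) *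
        ((Real.exp G * (G : ℝ) ^ r) ^ (r + 1) * Real.exp (-(κ * τ)) ^ (v - 1))))) ≤
        Real.exp (-1) := by
      have hε' : (r + 3) * τ ≤ ε * N := by
        calc ((r : ℝ) + 3) * τ ≤ (r + 3) * (2 * η * N) :=
              mul_le_mul_of_nonneg_left hτ2 (by positivity)
          _ = ε * N := by rw [hη]; field_simp
      have hdr : (d : ℝ) = v + r + 1 := by rw [hd]; push_cast; ring
      calc ((d + 1)! : ℝ) * ((d + 1) * (Real.exp ((d + 1 / 4) * τ) *
          ((2 * Real.exp G * Real.exp (-(ε * N))) *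
          ((Real.exp G * (G : ℝ) ^ r) ^ (r + 1) * Real.exp (-(κ * τ)) ^ (v - 1)))))
          = (2 * u * ((d + 1)! : ℝ)) * (Real.exp ((d + 1 / 4) * τ) *
          (Real.exp G * (Real.exp (-(ε * N)) *
          ((Real.exp G * (G : ℝ) ^ r) ^ (r + 1) * Real.exp (-(κ * τ)) ^ (v - 1))))) := by
            rw [hu]; ring
        _ ≤ Real.exp F * (Real.exp ((d + 1 / 4) * τ) *
          (Real.exp p * (Real.exp (-(ε * N)) *
          (Real.exp (τ / 8) * Real.exp (-(κ * τ)) ^ (v - 1))))) := by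
            rw [hexpF]
            apply mul_le_mul_of_nonneg_left _ (by positivity)
            apply mul_le_mul_of_nonneg_left _ (by positivity)
            apply mul_le_mul (Real.exp_le_exp.mpr b4) _ (by positivity) (by positivity)
            apply mul_le_mul_of_nonneg_left _ (by positivity)
            exact mul_le_mul_of_nonneg_right b3 (by positivity)
        _ = Real.exp (F + ((d + 1 / 4) * τ + (p + (-(ε * N) + (τ / 8 +
            ((v - 1 : ℕ) : ℝ) * (-(κ * τ))))))) := by
            rw [Real.exp_add, Real.exp_add, Real.exp_add, Real.exp_add, Real.exp_add,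
              Real.exp_nat_mul]
        _ ≤ Real.exp (-1) := by
            apply Real.exp_le_exp.mpr
            rw [hv1]
            have : (d + 1 / 4) * τ + τ / 8 - (((v : ℝ) - 1) * τ - τ / 4) =
              (r + 3) * τ - 3 * τ / 8 := by rw [hdr]; ring
            nlinarith
    have hexp1 : Real.exp (-1) < 1 / 2 := by
      rw [Real.exp_neg, ← one_div]
      apply one_div_lt_one_div_of_lt (by norm_num)
      have := Real.exp_one_gt_d9
      linarith
    rw [mul_add]
    linarith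

end Pool.Agent.Helper32.ExpN
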