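import Mathlib

/-!
Hermite's simultaneous approximations to powers of `e`, with a nonvanishing determinant.
-/

namespace Pool.Agent.Helper32.ExpN

open Polynomial Finset
open scoped Nat

/-- Hermite's auxiliary polynomial. -/
noncomputable def fpoly {d : ℕ} (j : Fin (d + 1) → ℕ) (p : ℕ) (i : Fin (d + 1)) : ℤ[X] :=
  (X - C (j i : ℤ)) ^ (p - 1) * ∏ l ∈ Finset.univ.erase i, (X - C (j l : ℤ)) ^ p

/-- The integrality and the divisibility properties of the numbers of Hermite. -/
theorem exists_forms {d : ℕ} (j : Fin (d + 1) → ℕ) (hj : Function.Injective j) (p : ℕ)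
    (hp : p.Prime) (G : ℕ) (hG : ∀ m, j m ≤ G) (hGp : G < p) :
    ∃ T : Matrix (Fin (d + 1)) (Fin (d + 1)) ℤ,
      (∀ i m, (sumIDeriv (fpoly j p i)).eval (j m : ℤ) = ((p - 1)! : ℤ) * T i m) ∧
      (∀ i m, i ≠ m → (p : ℤ) ∣ T i m) ∧ (∀ i, ¬ (p : ℤ) ∣ T i i) := by
  have key : ∀ i m, ∃ t : ℤ, (sumIDeriv (fpoly j p i)).eval (j m : ℤ) = ((p - 1)! : ℤ) * t ∧
      (i ≠ m → (p : ℤ) ∣ t) ∧ (i = m → ¬ (p : ℤ) ∣ t) := by
    intro i m
    obtain ⟨gp, -, hgp⟩ := eval_sumIDeriv_of_pos (fpoly j p i) hp.pos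
    have hfac : ((p ! : ℕ) : ℤ) = ((p - 1)! : ℤ) * p := by
      rw [← Nat.mul_factorial_pred hp.ne_zero]
      push_cast
      ring
    by_cases him : i = m
    · subst him
      have h1 := hgp (j i : ℤ) (p' := ∏ l ∈ Finset.univ.erase i, (X - C (j l : ℤ)) ^ p) rfl
      refine ⟨(∏ l ∈ Finset.univ.erase i, (X - C (j l : ℤ)) ^ p).eval (j i : ℤ) +
        p * gp.eval (j i : ℤ), ?_, fun h => absurd rfl h, fun _ => ?_⟩
      · rw [h1, nsmul_eq_mul, nsmul_eq_mul, hfac]
        ring
      · intro hdiv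
        have h2 : (p : ℤ) ∣ (∏ l ∈ Finset.univ.erase i, (X - C (j l : ℤ)) ^ p).eval (j i : ℤ) :=
          (dvd_add_left (dvd_mul_right _ _)).mp hdiv
        rw [eval_prod] at h2
        have hp' : Prime (p : ℤ) := Nat.prime_iff_prime_int.mp hp
        obtain ⟨l, hl, h3⟩ := (Prime.dvd_finset_prod_iff hp' _).mp h2
        rw [eval_pow] at h3
        have h4 := hp'.dvd_of_dvd_pow h3
        simp only [eval_sub, eval_X, eval_C] at h4
        have hne : j i ≠ j l := fun h => (Finset.ne_of_mem_erase hl) (hj h).symm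
        have h5 : ((j i : ℤ) - j l) ≠ 0 := by
          intro h
          apply hne
          exact_mod_cast sub_eq_zero.mp h
        have h6 := Int.le_of_dvd (abs_pos.mpr h5) ((dvd_abs _ _).mpr h4)
        have h7 := hG i
        have h8 := hG l
        rw [le_abs] at h6
        omega
    · have hm : m ∈ Finset.univ.erase i := by simp [Ne.symm him]
      have h1 := hgp (j m : ℤ)
        (p' := (X - C (j m : ℤ)) * ((X - C (j i : ℤ)) ^ (p - 1) *
          ∏ l ∈ (Finset.univ.erase i).erase m, (X - C (j l : ℤ)) ^ p)) (by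
          rw [fpoly, ← Finset.mul_prod_erase _ _ hm]
          have : (X - C (j m : ℤ)) ^ p = (X - C (j m : ℤ)) ^ (p - 1) * (X - C (j m : ℤ)) := by
            rw [← pow_succ, Nat.sub_add_cancel hp.one_le]
          rw [this]
          ring)
      refine ⟨p * gp.eval (j m : ℤ), ?_, fun _ => dvd_mul_right _ _, fun h => absurd h him⟩
      rw [h1, nsmul_eq_mul, nsmul_eq_mul, hfac]
      simp only [eval_mul, eval_sub, eval_X, eval_C, sub_self, zero_mul, mul_zero, zero_add]
      ring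
  choose T hT using key
  exact ⟨T, fun i m => (hT i m).1, fun i m h => (hT i m).2.1 h, fun i => (hT i i).2.2 rfl⟩

theorem det_ne_zero_of_mod {n : ℕ} (T : Matrix (Fin n) (Fin n) ℤ) (p : ℕ) (hp : p.Prime)
    (h1 : ∀ i m, i ≠ m → (p : ℤ) ∣ T i m) (h2 : ∀ i, ¬ (p : ℤ) ∣ T i i) : T.det ≠ 0 := by
  haveI : Fact p.Prime := ⟨hp⟩
  intro h0
  have h3 : (Int.castRingHom (ZMod p)) T.det = 0 := by rw [h0]; simp
  rw [RingHom.map_det] at h3
  have h4 : (Int.castRingHom (ZMod p)).mapMatrix T = Matrix.diagonal (fun i => (T i i : ZMod p)) := by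
    ext i m
    by_cases him : i = m
    · subst him; simp
    · rw [Matrix.diagonal_apply_ne _ him]
      simp only [RingHom.mapMatrix_apply, Matrix.map_apply]
      exact (ZMod.intCast_zmod_eq_zero_iff_dvd _ _).mpr (h1 i m him)
  rw [h4, Matrix.det_diagonal, Finset.prod_eq_zero_iff] at h3
  obtain ⟨i, -, hi⟩ := h3
  exact h2 i ((ZMod.intCast_zmod_eq_zero_iff_dvd _ _).mp hi)

/-- Hermite's identity in the form of an inequality. -/
theorem hermite_ineq (f : ℝ[X]) (t B : ℝ) (ht : 0 ≤ t) (hB : ∀ x ∈ Set.Icc 0 t, |f.eval x| ≤ B) :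
    |(sumIDeriv f).eval t - Real.exp t * (sumIDeriv f).eval 0| ≤ t * (Real.exp t * B) := by
  have hd : ∀ x ∈ Set.Icc 0 t, HasDerivWithinAt
      (fun x : ℝ => -(Real.exp (t - x) * (sumIDeriv f).eval x))
      (Real.exp (t - x) * f.eval x) (Set.Icc 0 t) x := by
    intro x _
    apply HasDerivAt.hasDerivWithinAt
    have h1 : HasDerivAt (fun x : ℝ => Real.exp (t - x)) (-Real.exp (t - x)) x := by
      have := ((hasDerivAt_id x).const_sub t).exp
      simpa using this
    have h2 := (sumIDeriv f).hasDerivAt x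
    have h3 := (h1.mul h2).neg
    convert! h3 using 1
    have h4 : (sumIDeriv f).eval x = f.eval x + (derivative (sumIDeriv f)).eval x := by
      conv_lhs => rw [sumIDeriv_eq_self_add f]
      rw [eval_add]
    rw [h4]
    ring
  have hbd : ∀ x ∈ Set.Ico 0 t, ‖Real.exp (t - x) * f.eval x‖ ≤ Real.exp t * B := by
    intro x hx
    rw [Real.norm_eq_abs, abs_mul, abs_of_pos (Real.exp_pos _)]
    apply mul_le_mul
    · apply Real.exp_le_exp.mpr
      linarith [hx.1]
    · exact hB x ⟨hx.1, hx.2.le⟩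
    · exact abs_nonneg _
    · exact (Real.exp_pos _).le
  have := norm_image_sub_le_of_norm_deriv_le_segment' hd hbd t ⟨ht, le_rfl⟩
  simp only [sub_self, Real.exp_zero, one_mul, sub_zero, Real.norm_eq_abs] at this
  calc |(sumIDeriv f).eval t - Real.exp t * (sumIDeriv f).eval 0|
      = |-(sumIDeriv f).eval t - -(Real.exp t * (sumIDeriv f).eval 0)| := by
        rw [← abs_neg]; congr 1; ring
    _ ≤ Real.exp t * B * t := this
    _ = _ := by ring

theorem fpoly_eval_bound {d : ℕ} (j : Fin (d + 1) → ℕ) (p : ℕ) (hp : 0 < p) (G : ℕ) 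
    (hG : ∀ m, j m ≤ G) (i : Fin (d + 1)) (x : ℝ) (hx0 : 0 ≤ x) (hxG : x ≤ G) :
    |((fpoly j p i).map (Int.castRingHom ℝ)).eval x| ≤ (G : ℝ) ^ ((d + 1) * p - 1) := by
  have h1 : ∀ l, |x - j l| ≤ G := by
    intro l
    have h2 : (j l : ℝ) ≤ G := by exact_mod_cast hG l
    have h3 : (0 : ℝ) ≤ j l := by positivity
    rw [abs_le]
    constructor <;> linarith
  have h4 : ((fpoly j p i).map (Int.castRingHom ℝ)).eval x =
      (x - j i) ^ (p - 1) * ∏ l ∈ Finset.univ.erase i, (x - j l) ^ p := by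
    rw [fpoly, Polynomial.map_mul, eval_mul, Polynomial.map_pow, Polynomial.map_prod, eval_prod]
    simp
  rw [h4, abs_mul, abs_pow, Finset.abs_prod]
  calc |x - j i| ^ (p - 1) * ∏ l ∈ Finset.univ.erase i, |(x - j l) ^ p|
      ≤ (G : ℝ) ^ (p - 1) * ∏ l ∈ Finset.univ.erase i, (G : ℝ) ^ p := by
        apply mul_le_mul
        · exact pow_le_pow_left₀ (abs_nonneg _) (h1 i) _
        · apply Finset.prod_le_prod
          · intro l _; exact abs_nonneg _
          · intro l _
            rw [abs_pow]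
            exact pow_le_pow_left₀ (abs_nonneg _) (h1 l) _
        · exact Finset.prod_nonneg (fun l _ => abs_nonneg _)
        · positivity
    _ = (G : ℝ) ^ ((d + 1) * p - 1) := by
        rw [Finset.prod_const, Finset.card_erase_of_mem (Finset.mem_univ _), Finset.card_univ,
          Fintype.card_fin, Nat.add_sub_cancel, ← pow_mul, ← pow_add]
        congr 1
        have : (d + 1) * p = d * p + p := by ring
        rw [this, mul_comm p d]
        omega

/-- Sum of the absolute values of the coefficients. -/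
noncomputable def l1 (f : ℤ[X]) : ℤ := ∑ k ∈ Finset.range (f.natDegree + 1), |f.coeff k|

theorem l1_eq {f : ℤ[X]} {n : ℕ} (hn : f.natDegree ≤ n) :
    l1 f = ∑ k ∈ Finset.range (n + 1), |f.coeff k| := by
  rw [l1]
  apply Finset.sum_subset
  · intro k hk
    simp only [Finset.mem_range] at hk ⊢
    omega
  · intro k _ hk
    simp only [Finset.mem_range, not_lt] at hk
    rw [coeff_eq_zero_of_natDegree_lt (by omega)]
    simp

theorem l1_nonneg (f : ℤ[X]) : 0 ≤ l1 f := Finset.sum_nonneg (fun _ _ => abs_nonneg _)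

theorem l1_mul_linear (f : ℤ[X]) (a : ℕ) : l1 ((X - C (a : ℤ)) * f) ≤ (1 + a) * l1 f := by
  have hdeg : ((X - C (a : ℤ)) * f).natDegree ≤ f.natDegree + 1 := by
    refine natDegree_mul_le.trans ?_
    rw [natDegree_X_sub_C]
    omega
  rw [l1_eq hdeg]
  have h1 : ∀ k, |((X - C (a : ℤ)) * f).coeff k| ≤ |(X * f).coeff k| + a * |f.coeff k| := by
    intro k
    rw [sub_mul, coeff_sub, coeff_C_mul]
    refine (abs_sub _ _).trans ?_
    rw [abs_mul, Nat.abs_cast]
  calc ∑ k ∈ Finset.range (f.natDegree + 1 + 1), |((X - C (a : ℤ)) * f).coeff k|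
      ≤ ∑ k ∈ Finset.range (f.natDegree + 1 + 1), (|(X * f).coeff k| + a * |f.coeff k|) :=
        Finset.sum_le_sum (fun k _ => h1 k)
    _ = ∑ k ∈ Finset.range (f.natDegree + 1 + 1), |(X * f).coeff k| +
        a * ∑ k ∈ Finset.range (f.natDegree + 1 + 1), |f.coeff k| := by
        rw [Finset.sum_add_distrib, Finset.mul_sum]
    _ = l1 f + a * l1 f := by
        rw [← l1_eq (f := f) (Nat.le_succ _)]
        congr 1
        rw [Finset.sum_range_succ', coeff_X_mul_zero, abs_zero, add_zero]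
        simp only [coeff_X_mul]
        rfl
    _ = (1 + a) * l1 f := by ring

theorem l1_pow_linear (f : ℤ[X]) (a G : ℕ) (ha : a ≤ G) (n : ℕ) :
    l1 ((X - C (a : ℤ)) ^ n * f) ≤ (1 + G) ^ n * l1 f := by
  induction n with
  | zero => simp
  | succ n ih =>
    have h1 : (X - C (a : ℤ)) ^ (n + 1) * f = (X - C (a : ℤ)) * ((X - C (a : ℤ)) ^ n * f) := by ring
    rw [h1]
    refine (l1_mul_linear _ _).trans ?_
    have h2 : ((1 : ℤ) + a) ≤ 1 + G := by
      have : (a : ℤ) ≤ G := by exact_mod_cast ha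
      linarith
    calc ((1 : ℤ) + a) * l1 ((X - C (a : ℤ)) ^ n * f)
        ≤ (1 + G) * ((1 + G) ^ n * l1 f) := by
          apply mul_le_mul h2 ih (l1_nonneg _) (by positivity)
      _ = _ := by ring

theorem l1_prod_linear {ι : Type*} (s : Finset ι) (j : ι → ℕ) (G : ℕ) (hG : ∀ m, j m ≤ G) (n : ℕ)
    (f : ℤ[X]) :
    l1 ((∏ l ∈ s, (X - C (j l : ℤ)) ^ n) * f) ≤ (1 + G) ^ (s.card * n) * l1 f := by
  classical
  induction s using Finset.induction_on with
  | empty => simp
  | insert a s ha ih =>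
    rw [Finset.prod_insert ha, Finset.card_insert_of_notMem ha, mul_assoc]
    refine (l1_pow_linear _ _ G (hG a) _).trans ?_
    calc ((1 : ℤ) + G) ^ n * l1 ((∏ l ∈ s, (X - C (j l : ℤ)) ^ n) * f)
        ≤ (1 + G) ^ n * ((1 + G) ^ (s.card * n) * l1 f) := by
          apply mul_le_mul_of_nonneg_left ih (by positivity)
      _ = _ := by ring

theorem l1_fpoly {d : ℕ} (j : Fin (d + 1) → ℕ) (p : ℕ) (hp : 0 < p) (G : ℕ) (hG : ∀ m, j m ≤ G)
    (i : Fin (d + 1)) : l1 (fpoly j p i) ≤ (1 + G) ^ ((d + 1) * p) := by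
  rw [fpoly]
  refine (l1_pow_linear _ _ G (hG i) _).trans ?_
  have h1 := l1_prod_linear (Finset.univ.erase i) j G hG p 1
  rw [mul_one, Finset.card_erase_of_mem (Finset.mem_univ _), Finset.card_univ, Fintype.card_fin,
    Nat.add_sub_cancel] at h1
  have h2 : l1 (1 : ℤ[X]) = 1 := by
    rw [l1, natDegree_one, zero_add, Finset.sum_range_one, coeff_one_zero, abs_one]
  rw [h2, mul_one] at h1
  calc ((1 : ℤ) + G) ^ (p - 1) * l1 (∏ l ∈ Finset.univ.erase i, (X - C (j l : ℤ)) ^ p)
      ≤ (1 + G) ^ (p - 1) * (1 + G) ^ (d * p) :=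
        mul_le_mul_of_nonneg_left h1 (by positivity)
    _ = (1 + G) ^ (p - 1 + d * p) := by rw [pow_add]
    _ ≤ (1 + G) ^ ((d + 1) * p) := by
        apply pow_le_pow_right₀
        · have : (0 : ℤ) ≤ G := by positivity
          linarith
        · have : (d + 1) * p = d * p + p := by ring
          omega

theorem natDegree_fpoly {d : ℕ} (j : Fin (d + 1) → ℕ) (p : ℕ) (hp : 0 < p) (i : Fin (d + 1)) :
    (fpoly j p i).natDegree ≤ (d + 1) * p := by
  rw [fpoly]
  refine natDegree_mul_le.trans ?_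
  rw [natDegree_pow, natDegree_X_sub_C, mul_one]
  have h1 : (∏ l ∈ Finset.univ.erase i, (X - C (j l : ℤ)) ^ p).natDegree ≤
      ∑ l ∈ Finset.univ.erase i, p := by
    refine (natDegree_prod_le _ _).trans (Finset.sum_le_sum ?_)
    intro l _
    rw [natDegree_pow, natDegree_X_sub_C, mul_one]
  rw [Finset.sum_const, Finset.card_erase_of_mem (Finset.mem_univ _), Finset.card_univ,
    Fintype.card_fin, Nat.add_sub_cancel, smul_eq_mul] at h1
  have : (d + 1) * p = d * p + p := by ring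
  omega

theorem sumIDeriv_eval_zero_bound (f : ℤ[X]) (n : ℕ) (hn : f.natDegree ≤ n) :
    |(sumIDeriv f).eval 0| ≤ (n ! : ℤ) * l1 f := by
  rw [sumIDeriv_apply_of_le hn, eval_finsetSum, l1_eq hn, Finset.mul_sum]
  refine (Finset.abs_sum_le_sum_abs _ _).trans (Finset.sum_le_sum ?_)
  intro k hk
  have h1 : (derivative^[k] f).eval 0 = (k ! : ℤ) * f.coeff k := by
    rw [← coeff_zero_eq_eval_zero, coeff_iterate_derivative, zero_add, Nat.descFactorial_self,
      nsmul_eq_mul]
  rw [h1, abs_mul, Nat.abs_cast]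
  apply mul_le_mul_of_nonneg_right _ (abs_nonneg _)
  have : k ≤ n := by simp only [Finset.mem_range] at hk; omega
  exact_mod_cast Nat.factorial_le this

/-- Hermite's approximations: a matrix of integers with nonzero determinant whose rows are nearly
proportional to the powers of `e`. -/
theorem hermite_forms {d : ℕ} (j : Fin (d + 1) → ℕ) (hj : Function.Injective j) (hj0 : j 0 = 0)
    (p : ℕ) (hp : p.Prime) (G : ℕ) (hG : ∀ m, j m ≤ G) (hGp : G < p) :
    ∃ T : Matrix (Fin (d + 1)) (Fin (d + 1)) ℤ, T.det ≠ 0 ∧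
      (∀ i, |(T i 0 : ℝ)| ≤ (((d + 1) * p)! : ℝ) * (1 + G) ^ ((d + 1) * p) / ((p - 1)! : ℝ)) ∧
      (∀ i m, |(T i m : ℝ) - Real.exp (j m) * T i 0| ≤
        Real.exp G * (G : ℝ) ^ ((d + 1) * p) / ((p - 1)! : ℝ)) := by
  obtain ⟨T, hT, hT1, hT2⟩ := exists_forms j hj p hp G hG hGp
  have hfpos : (0 : ℝ) < ((p - 1)! : ℝ) := by exact_mod_cast Nat.factorial_pos _
  refine ⟨T, det_ne_zero_of_mod T p hp hT1 hT2, ?_, ?_⟩
  · intro i
    rw [le_div_iff₀ hfpos]
    have h1 := sumIDeriv_eval_zero_bound (fpoly j p i) _ (natDegree_fpoly j p hp.pos i)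
    have h2 := hT i 0
    rw [hj0, Nat.cast_zero] at h2
    rw [h2, abs_mul, Nat.abs_cast] at h1
    have h3 := h1.trans (mul_le_mul_of_nonneg_left (l1_fpoly j p hp.pos G hG i) (by positivity))
    have h4 : (((p - 1)! : ℤ) * |T i 0| : ℝ) ≤ (((d + 1) * p)! : ℝ) * (1 + G) ^ ((d + 1) * p) := by
      exact_mod_cast h3
    push_cast at h4
    linarith
  · intro i m
    have h1 : (sumIDeriv ((fpoly j p i).map (Int.castRingHom ℝ))).eval (j m : ℝ) =
        ((p - 1)! : ℝ) * T i m := by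
      rw [sumIDeriv_map, eval_natCast_map]
      rw [hT i m]
      simp
    have h2 : (sumIDeriv ((fpoly j p i).map (Int.castRingHom ℝ))).eval (0 : ℝ) =
        ((p - 1)! : ℝ) * T i 0 := by
      have := hT i 0
      rw [hj0] at this
      rw [sumIDeriv_map]
      have h3 := eval_natCast_map (Int.castRingHom ℝ) (sumIDeriv (fpoly j p i)) 0
      rw [Nat.cast_zero, Nat.cast_zero] at h3
      rw [h3]
      rw [Nat.cast_zero] at this
      rw [this]
      simp
    have hjm : (j m : ℝ) ≤ G := by exact_mod_cast hG m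
    have h5 := hermite_ineq ((fpoly j p i).map (Int.castRingHom ℝ)) (j m)
      ((G : ℝ) ^ ((d + 1) * p - 1)) (by positivity) (by
        intro x hx
        exact fpoly_eval_bound j p hp.pos G hG i x hx.1 (hx.2.trans hjm))
    rw [h1, h2] at h5
    rw [le_div_iff₀ hfpos]
    have h6 : |((p - 1)! : ℝ) * T i m - Real.exp (j m) * (((p - 1)! : ℝ) * T i 0)| =
        |(T i m : ℝ) - Real.exp (j m) * T i 0| * ((p - 1)! : ℝ) := by
      rw [← abs_of_pos hfpos, ← abs_mul, abs_of_pos hfpos]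
      congr 1
      ring
    rw [h6] at h5
    refine h5.trans ?_
    have h7 : Real.exp (j m) ≤ Real.exp G := Real.exp_le_exp.mpr hjm
    have h8 : (0 : ℝ) ≤ (G : ℝ) ^ ((d + 1) * p - 1) := by positivity
    calc (j m : ℝ) * (Real.exp (j m) * (G : ℝ) ^ ((d + 1) * p - 1))
        ≤ G * (Real.exp G * (G : ℝ) ^ ((d + 1) * p - 1)) := by
          apply mul_le_mul hjm (mul_le_mul_of_nonneg_right h7 h8) (by positivity) (by positivity)
      _ = Real.exp G * ((G : ℝ) ^ ((d + 1) * p - 1) * G) := by ring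
      _ = Real.exp G * (G : ℝ) ^ ((d + 1) * p) := by
          rw [← pow_succ, Nat.sub_add_cancel]
          exact Nat.mul_pos (Nat.succ_pos d) hp.pos

end Pool.Agent.Helper32.ExpN
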