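import Mathlib

/-!
The values of `X e^x - P(x)` at sufficiently many integers cannot all be near zero, and the
resulting linear independence.
-/

namespace Pool.Agent.Helper32.ExpN

open Polynomial Finset
open scoped Nat

/-- Iterated Rolle theorem for `X e^x = g(x)`. -/
theorem iterated_rolle (X : ℝ) : ∀ (k : ℕ) (g : ℝ[X]) (z : Fin (k + 1) → ℝ), StrictMono z →
    (∀ i, X * Real.exp (z i) = g.eval (z i)) →
    ∃ ζ, z 0 ≤ ζ ∧ X * Real.exp ζ = (derivative^[k] g).eval ζ := by
  intro k
  induction k with
  | zero =>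
    intro g z _ h
    exact ⟨z 0, le_rfl, h 0⟩
  | succ k ih =>
    intro g z hz h
    have key : ∀ i : Fin (k + 1), ∃ y, z i.castSucc < y ∧ y < z i.succ ∧
        X * Real.exp y = (derivative g).eval y := by
      intro i
      have hlt : z i.castSucc < z i.succ := hz (Fin.castSucc_lt_succ)
      obtain ⟨c, hc, hc'⟩ := exists_hasDerivAt_eq_zero
        (f := fun x => X * Real.exp x - g.eval x)
        (f' := fun x => X * Real.exp x - (derivative g).eval x) hlt
        (by fun_prop) (by simp only [h, sub_self]) (by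
          intro x _
          exact ((Real.hasDerivAt_exp x).const_mul X).sub (g.hasDerivAt x))
      exact ⟨c, hc.1, hc.2, by linarith⟩
    choose y hy1 hy2 hy3 using key
    have hymono : StrictMono y := by
      intro a b hab
      have h1 : z a.succ ≤ z b.castSucc := by
        apply hz.monotone
        rw [Fin.le_def]
        simp only [Fin.val_succ, Fin.val_castSucc]
        exact hab
      linarith [hy2 a, hy1 b]
    obtain ⟨ζ, hζ, hζ'⟩ := ih (derivative g) y hymono hy3
    refine ⟨ζ, ?_, ?_⟩
    · have := hy1 0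
      simp only [Fin.castSucc_zero] at this
      linarith
    · rw [Function.iterate_succ_apply]
      exact hζ'

/-- `X e^x` is not near to a polynomial of degree at most `r` at `r + 2` natural numbers. -/
theorem exp_not_near_poly {r : ℕ} (X δ : ℝ) (z : Fin (r + 2) → ℕ) (hz : StrictMono z)
    (g : ℝ[X]) (hg : g.natDegree ≤ r) (h : ∀ i, |X * Real.exp (z i) - g.eval (z i : ℝ)| ≤ δ) :
    |X| ≤ ((r + 2)! : ℝ) * δ := by
  classical
  set v : Fin (r + 2) → ℝ := fun i => X * Real.exp (z i) - g.eval (z i : ℝ) with hv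
  have hinj : Set.InjOn (fun i => (z i : ℝ)) (Finset.univ : Finset (Fin (r + 2))) := by
    intro a _ b _ hab
    have hab' : (z a : ℝ) = z b := hab
    exact hz.injective (by exact_mod_cast hab')
  set q : ℝ[X] := Lagrange.interpolate Finset.univ (fun i => (z i : ℝ)) v with hq
  have hqdeg : q.degree < (Finset.univ : Finset (Fin (r + 2))).card :=
    Lagrange.degree_interpolate_lt _ hinj
  have hqeval : ∀ i, q.eval (z i : ℝ) = v i := fun i =>
    Lagrange.eval_interpolate_at_node _ hinj (Finset.mem_univ i)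
  obtain ⟨ζ, hζ, hζ'⟩ := iterated_rolle X (r + 1) (g + q) (fun i => (z i : ℝ))
    (fun a b hab => by
      have : (z a : ℝ) < z b := by exact_mod_cast hz hab
      exact this) (by
      intro i
      rw [eval_add, hqeval, hv]
      ring)
  have hζ0 : 0 ≤ ζ := le_trans (by positivity) hζ
  have hcoeff := Lagrange.coeff_eq_sum hinj hqdeg
  rw [Finset.card_univ, Fintype.card_fin] at hcoeff hqdeg
  have hqnat : q.natDegree ≤ r + 1 := by
    by_cases hq0 : q = 0
    · rw [hq0]; simp
    · have h1 := (natDegree_lt_iff_degree_lt hq0).mpr hqdeg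
      omega
  have hder : (derivative^[r + 1] (g + q)).eval ζ = ((r + 1)! : ℝ) * q.coeff (r + 1) := by
    have h1 : derivative^[r + 1] g = 0 := iterate_derivative_eq_zero (by omega)
    rw [iterate_map_add, h1, zero_add]
    have h2 : derivative^[r + 1] q = C (((r + 1)! : ℝ) * q.coeff (r + 1)) := by
      ext n
      rw [coeff_iterate_derivative, coeff_C]
      by_cases hn : n = 0
      · subst hn
        rw [if_pos rfl, zero_add, Nat.descFactorial_self, nsmul_eq_mul]
      · rw [if_neg hn, coeff_eq_zero_of_natDegree_lt (by omega), smul_zero]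
    rw [h2, eval_C]
  have hcb : |q.coeff (r + 1)| ≤ (r + 2) * δ := by
    have h1 : r + 2 - 1 = r + 1 := by omega
    rw [h1] at hcoeff
    rw [hcoeff]
    refine (Finset.abs_sum_le_sum_abs _ _).trans ?_
    have h2 : ∀ i ∈ (Finset.univ : Finset (Fin (r + 2))),
        |q.eval (z i : ℝ) / ∏ l ∈ Finset.univ.erase i, ((z i : ℝ) - z l)| ≤ δ := by
      intro i _
      rw [hqeval, abs_div]
      have h3 : 1 ≤ |∏ l ∈ Finset.univ.erase i, ((z i : ℝ) - z l)| := by
        rw [Finset.abs_prod]
        apply Finset.one_le_prod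
        intro l hl
        have hne : z i ≠ z l := fun h => (Finset.ne_of_mem_erase hl) (hz.injective h).symm
        have h4 : (1 : ℤ) ≤ |(z i : ℤ) - z l| := by
          apply Int.one_le_abs
          intro h
          apply hne
          exact_mod_cast sub_eq_zero.mp h
        exact_mod_cast h4
      exact (div_le_self (abs_nonneg _) h3).trans (h i)
    refine (Finset.sum_le_card_nsmul _ _ _ h2).trans ?_
    rw [Finset.card_univ, Fintype.card_fin, nsmul_eq_mul]
    push_cast
    exact le_rfl
  rw [hder] at hζ'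
  have h5 : |X| ≤ |X * Real.exp ζ| := by
    rw [abs_mul, abs_of_pos (Real.exp_pos _)]
    exact le_mul_of_one_le_right (abs_nonneg _) (Real.one_le_exp hζ0)
  calc |X| ≤ |X * Real.exp ζ| := h5
    _ = ((r + 1)! : ℝ) * |q.coeff (r + 1)| := by
        rw [hζ', abs_mul, Nat.abs_cast]
    _ ≤ ((r + 1)! : ℝ) * ((r + 2) * δ) := by
        apply mul_le_mul_of_nonneg_left hcb (by positivity)
    _ = ((r + 2)! : ℝ) * δ := by
        rw [Nat.factorial_succ (r + 1)]
        push_cast
        ring

/-- The vectors `b`, `(1)`, `(j m)`, `(j m)^2`, ..., `(j m)^r`. -/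
def Wvec {d r : ℕ} (j : Fin (d + 1) → ℕ) (b : Fin (d + 1) → ℤ) :
    Fin (r + 2) → Fin (d + 1) → ℤ :=
  Fin.cons b (fun (t : Fin (r + 1)) m => (j m : ℤ) ^ (t : ℕ))

theorem Wvec_indep {d r : ℕ} (hdr : r + 2 ≤ d + 1) (j : Fin (d + 1) → ℕ) (hj : StrictMono j)
    (b : Fin (d + 1) → ℤ) (X δ : ℝ) (P : ℝ[X]) (hP : P.natDegree ≤ r)
    (h : ∀ m, |X * Real.exp (j m) - P.eval (j m : ℝ) - b m| ≤ δ)
    (hX : ((r + 2)! : ℝ) * δ < |X|) : LinearIndependent ℤ (Wvec (r := r) j b) := by
  rw [Fintype.linearIndependent_iff]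
  intro g hg
  have hm : ∀ m, g 0 * b m + ∑ t : Fin (r + 1), g t.succ * (j m : ℤ) ^ (t : ℕ) = 0 := by
    intro m
    have h1 := congrFun hg m
    rw [Finset.sum_apply, Fin.sum_univ_succ] at h1
    simpa [Wvec] using h1
  have hg0 : g 0 = 0 := by
    by_contra hne
    have hne' : (g 0 : ℝ) ≠ 0 := by exact_mod_cast hne
    set R : ℝ[X] := ∑ t : Fin (r + 1), C (-(g t.succ : ℝ) / g 0) * Polynomial.X ^ (t : ℕ) with hR
    have hRdeg : R.natDegree ≤ r := by
      rw [hR]
      apply natDegree_sum_le_of_forall_le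
      intro t _
      refine (natDegree_C_mul_X_pow_le _ _).trans ?_
      have := t.2
      omega
    have hReval : ∀ m, R.eval (j m : ℝ) = b m := by
      intro m
      rw [hR, eval_finsetSum]
      have h1 : (g 0 : ℝ) * b m + ∑ t : Fin (r + 1), (g t.succ : ℝ) * (j m : ℝ) ^ (t : ℕ) = 0 := by
        exact_mod_cast hm m
      have h2 : ∀ t : Fin (r + 1), eval (j m : ℝ) (C (-(g t.succ : ℝ) / g 0) *
          Polynomial.X ^ (t : ℕ)) = -(1 / g 0) * ((g t.succ : ℝ) * (j m : ℝ) ^ (t : ℕ)) := by
        intro t
        simp only [eval_mul, eval_C, eval_pow, eval_X]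
        ring
      rw [Finset.sum_congr rfl (fun t _ => h2 t), ← Finset.mul_sum]
      have h3 : ∑ t : Fin (r + 1), (g t.succ : ℝ) * (j m : ℝ) ^ (t : ℕ) = -((g 0 : ℝ) * b m) := by
        linarith
      rw [h3]
      field_simp
    have h4 := exp_not_near_poly X δ (fun i : Fin (r + 2) => j (Fin.castLE hdr i))
      (fun a b hab => hj (by simpa using hab)) (P + R)
      (natDegree_add_le_of_degree_le hP hRdeg) (by
        intro i
        rw [eval_add, hReval]
        have := h (Fin.castLE hdr i)
        rwa [sub_sub] at this)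
    linarith
  have hz : (∑ t : Fin (r + 1), C (g t.succ) * Polynomial.X ^ (t : ℕ) : ℤ[X]) = 0 := by
    apply eq_zero_of_natDegree_lt_card_of_eval_eq_zero (f := fun m => (j m : ℤ))
    · intro a b hab
      have hab' : (j a : ℤ) = j b := hab
      exact hj.injective (by exact_mod_cast hab')
    · intro m
      rw [eval_finsetSum]
      have h1 := hm m
      rw [hg0, zero_mul, zero_add] at h1
      rw [← h1]
      apply Finset.sum_congr rfl
      intro t _
      simp
    · rw [Fintype.card_fin]
      refine lt_of_le_of_lt (natDegree_sum_le_of_forall_le (n := r) _ _ ?_) (by omega)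
      intro t _
      refine (natDegree_C_mul_X_pow_le _ _).trans ?_
      have := t.2
      omega
  intro t
  induction t using Fin.cases with
  | zero => exact hg0
  | succ t =>
    have h1 := congrArg (fun q : ℤ[X] => q.coeff (t : ℕ)) hz
    simp only [finsetSum_coeff, coeff_C_mul, coeff_X_pow, coeff_zero] at h1
    rw [Finset.sum_eq_single t] at h1
    · simpa using h1
    · intro s _ hs
      rw [if_neg (fun h => hs (Fin.ext h.symm)), mul_zero]
    · intro h; exact absurd (Finset.mem_univ t) h

end Pool.Agent.Helper32.ExpN
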