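import Mathlib

/-!
Exchange of rows in integer matrices and an estimate of determinants.
-/

namespace Pool.Agent.Helper32.ExpN

open Finset
open scoped Nat Matrix

/-- Cramer's rule for rows over `ℤ`. -/
theorem row_cramer {n : ℕ} (B : Matrix (Fin n) (Fin n) ℤ) (w : Fin n → ℤ) :
    B.det • w = ∑ i, (B.updateRow i w).det • B i := by
  have h := Matrix.mulVec_cramer Bᵀ w
  rw [Matrix.det_transpose] at h
  rw [← h]
  funext k
  rw [Matrix.mulVec, dotProduct, Finset.sum_apply]
  apply Finset.sum_congr rfl
  intro i _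
  rw [Matrix.cramer_transpose_apply, Matrix.transpose_apply, Pi.smul_apply, smul_eq_mul, mul_comm]

/-- The exchange lemma of Steinitz for the rows of an integer matrix. -/
theorem exchange {n : ℕ} (T : Matrix (Fin n) (Fin n) ℤ) (hT : T.det ≠ 0) :
    ∀ (s : ℕ) (W : Fin s → Fin n → ℤ), LinearIndependent ℤ W →
    ∃ (B : Matrix (Fin n) (Fin n) ℤ) (ph : Fin s → Fin n), Function.Injective ph ∧ B.det ≠ 0 ∧
      (∀ t, B (ph t) = W t) ∧ (∀ i, (∀ t, ph t ≠ i) → B i = T i) := by
  intro s
  induction s with
  | zero =>
    intro W _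
    exact ⟨T, fun t => t.elim0, fun t => t.elim0, hT, fun t => t.elim0, fun _ _ => rfl⟩
  | succ s ih =>
    intro W hW
    have hW' : LinearIndependent ℤ (fun t : Fin s => W t.castSucc) :=
      hW.comp _ (Fin.castSucc_injective s)
    obtain ⟨B, ph, hph, hB, h1, h2⟩ := ih _ hW'
    have key : ∃ i, (∀ t, ph t ≠ i) ∧ (B.updateRow i (W (Fin.last s))).det ≠ 0 := by
      by_contra hcon
      push Not at hcon
      have h3 := row_cramer B (W (Fin.last s))
      have h4 : ∑ i, (B.updateRow i (W (Fin.last s))).det • B i =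
          ∑ t, (B.updateRow (ph t) (W (Fin.last s))).det • W t.castSucc := by
        rw [← Finset.sum_subset (Finset.subset_univ (Finset.univ.image ph))]
        · rw [Finset.sum_image (fun a _ b _ hab => hph hab)]
          exact Finset.sum_congr rfl (fun t _ => by rw [h1 t])
        · intro i _ hi
          have : ∀ t, ph t ≠ i := by
            intro t ht
            apply hi
            rw [← ht]
            exact Finset.mem_image_of_mem _ (Finset.mem_univ _)
          rw [hcon i this, zero_smul]
      rw [h4] at h3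
      rw [Fintype.linearIndependent_iff] at hW
      have h5 := hW (Fin.snoc (fun t => (B.updateRow (ph t) (W (Fin.last s))).det) (-B.det)) (by
        rw [Fin.sum_univ_castSucc]
        simp only [Fin.snoc_castSucc, Fin.snoc_last, neg_smul]
        rw [h3]
        exact add_neg_cancel _) (Fin.last s)
      rw [Fin.snoc_last] at h5
      exact hB (neg_eq_zero.mp h5)
    obtain ⟨i, hi, hdet⟩ := key
    refine ⟨B.updateRow i (W (Fin.last s)), Fin.snoc ph i, ?_, hdet, ?_, ?_⟩
    · intro a b hab
      induction a using Fin.lastCases with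
      | last =>
        induction b using Fin.lastCases with
        | last => rfl
        | cast b =>
          simp only [Fin.snoc_castSucc, Fin.snoc_last] at hab
          exact absurd hab.symm (hi b)
      | cast a =>
        induction b using Fin.lastCases with
        | last =>
          simp only [Fin.snoc_castSucc, Fin.snoc_last] at hab
          exact absurd hab (hi a)
        | cast b =>
          simp only [Fin.snoc_castSucc] at hab
          rw [hph hab]
    · intro t
      induction t using Fin.lastCases with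
      | last => simp
      | cast t =>
        simp only [Fin.snoc_castSucc]
        rw [Matrix.updateRow_ne (hi t)]
        exact h1 t
    · intro k hk
      have hki : k ≠ i := by
        intro h
        have := hk (Fin.last s)
        simp only [Fin.snoc_last] at this
        exact this h.symm
      rw [Matrix.updateRow_ne hki]
      apply h2
      intro t
      have := hk t.castSucc
      simpa using this

/-- An estimate of a determinant with one large column. -/
theorem det_bound {d : ℕ} (M : Matrix (Fin (d + 1)) (Fin (d + 1)) ℝ) (α β : Fin (d + 1) → ℝ)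
    (hα : ∀ i, |M i 0| ≤ α i) (hβ : ∀ i m, m ≠ 0 → |M i m| ≤ β i) :
    |M.det| ≤ ((d + 1)! : ℝ) * ∑ i, α i * ∏ l ∈ Finset.univ.erase i, β l := by
  by_cases hd : d = 0
  · subst hd
    have h1 : M.det = M 0 0 := Matrix.det_fin_one M
    have h2 : ∑ i : Fin (0 + 1), α i * ∏ l ∈ Finset.univ.erase i, β l = α 0 := by
      rw [Fin.sum_univ_one]
      have : (Finset.univ : Finset (Fin (0 + 1))).erase 0 = ∅ := by decide
      rw [this, Finset.prod_empty, mul_one]
    rw [h1, h2]
    simpa using hα 0
  have hα0 : ∀ i, 0 ≤ α i := fun i => (abs_nonneg _).trans (hα i)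
  have hβ0 : ∀ i, 0 ≤ β i := by
    intro i
    have h1 : (Fin.last d : Fin (d + 1)) ≠ 0 := by
      intro h
      have := congrArg Fin.val h
      simp at this
      exact hd this
    exact (abs_nonneg _).trans (hβ i _ h1)
  rw [Matrix.det_apply]
  refine (Finset.abs_sum_le_sum_abs _ _).trans ?_
  have h1 : ∀ σ : Equiv.Perm (Fin (d + 1)), |Equiv.Perm.sign σ • ∏ i, M (σ i) i| ≤
      ∑ i, α i * ∏ l ∈ Finset.univ.erase i, β l := by
    intro σ
    have h2 : |Equiv.Perm.sign σ • ∏ i, M (σ i) i| = ∏ i, |M (σ i) i| := by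
      rw [Units.smul_def, zsmul_eq_mul, abs_mul, Finset.abs_prod]
      have : |((Equiv.Perm.sign σ : ℤ) : ℝ)| = 1 := by
        rcases Int.units_eq_one_or (Equiv.Perm.sign σ) with h | h <;> simp [h]
      rw [this, one_mul]
    rw [h2, ← Finset.mul_prod_erase _ _ (Finset.mem_univ (0 : Fin (d + 1)))]
    have h3 : ∏ i ∈ Finset.univ.erase 0, |M (σ i) i| ≤ ∏ i ∈ Finset.univ.erase 0, β (σ i) := by
      apply Finset.prod_le_prod
      · intro i _; exact abs_nonneg _
      · intro i hi; exact hβ _ _ (Finset.ne_of_mem_erase hi)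
    have h4 : ∏ i ∈ Finset.univ.erase (0 : Fin (d + 1)), β (σ i) =
        ∏ l ∈ Finset.univ.erase (σ 0), β l := by
      apply Finset.prod_bij (fun i _ => σ i)
      · intro i hi
        simp only [Finset.mem_erase, Finset.mem_univ, and_true] at hi ⊢
        exact fun h => hi (σ.injective h)
      · intro a _ b _ hab; exact σ.injective hab
      · intro b hb
        refine ⟨σ.symm b, ?_, by simp⟩
        simp only [Finset.mem_erase, Finset.mem_univ, and_true] at hb ⊢
        intro h
        apply hb
        rw [← h]; simp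
      · intro _ _; rfl
    rw [h4] at h3
    refine (mul_le_mul (hα _) h3 (Finset.prod_nonneg (fun _ _ => abs_nonneg _)) (hα0 _)).trans ?_
    exact Finset.single_le_sum
      (f := fun i => α i * ∏ l ∈ Finset.univ.erase i, β l)
      (fun i _ => mul_nonneg (hα0 i) (Finset.prod_nonneg (fun l _ => hβ0 l)))
      (Finset.mem_univ (σ 0))
  refine (Finset.sum_le_sum (fun σ _ => h1 σ)).trans ?_
  rw [Finset.sum_const, Finset.card_univ, Fintype.card_perm, Fintype.card_fin, nsmul_eq_mul]

/-- Column operations. -/
theorem det_colOp {d : ℕ} (M M' : Matrix (Fin (d + 1)) (Fin (d + 1)) ℝ) (e : Fin (d + 1) → ℝ)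
    (he : e 0 = 0) (h : ∀ i m, M i m = M' i m + e m * M' i 0) : M.det = M'.det := by
  rw [← Matrix.det_transpose M, ← Matrix.det_transpose M']
  apply Matrix.det_eq_of_forall_row_eq_smul_add_const e 0 he
  intro i j
  simp only [Matrix.transpose_apply]
  exact h j i

/-- The estimate of the determinant in the structured case. -/
theorem det_bound_structured {d r : ℕ} (M : Matrix (Fin (d + 1)) (Fin (d + 1)) ℝ)
    (ph : Fin (r + 2) → Fin (d + 1)) (hph : Function.Injective ph)
    (A0 Q D I δ : ℝ) (hQ : 1 ≤ Q) (hD : 1 ≤ D) (hI0 : 0 ≤ I) (hI1 : I ≤ 1) (hδ0 : 0 ≤ δ)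
    (hA0 : |M (ph 0) 0| ≤ A0) (hb : ∀ m, m ≠ 0 → |M (ph 0) m| ≤ δ)
    (hW0 : ∀ t : Fin (r + 1), |M (ph t.succ) 0| ≤ 1)
    (hW : ∀ (t : Fin (r + 1)) m, m ≠ 0 → |M (ph t.succ) m| ≤ D)
    (hT0 : ∀ i, (∀ t, ph t ≠ i) → |M i 0| ≤ Q)
    (hT : ∀ i, (∀ t, ph t ≠ i) → ∀ m, m ≠ 0 → |M i m| ≤ I) :
    |M.det| ≤ ((d + 1)! : ℝ) * (A0 * (D ^ (r + 1) * I ^ (d + 1 - (r + 2))) +
      (d + 1) * (Q * (δ * (D ^ (r + 1) * I ^ (d + 1 - (r + 2) - 1))))) := by
  classical
  set S : Finset (Fin (d + 1)) := Finset.univ.image (fun t : Fin (r + 1) => ph t.succ) with hS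
  set U : Finset (Fin (d + 1)) := Finset.univ \ Finset.univ.image ph with hU
  have hScard : S.card = r + 1 := by
    rw [hS, Finset.card_image_of_injective _ (fun a b hab => Fin.succ_injective _ (hph hab))]
    simp
  have hUcard : U.card = d + 1 - (r + 2) := by
    rw [hU, Finset.card_sdiff_of_subset (Finset.subset_univ _),
      Finset.card_image_of_injective _ hph]
    simp
  have hUmem : ∀ i, i ∈ U ↔ ∀ t, ph t ≠ i := by
    intro i
    simp only [hU, Finset.mem_sdiff, Finset.mem_univ, true_and, Finset.mem_image, not_exists]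
  have hSmem : ∀ i, i ∈ S ↔ ∃ t : Fin (r + 1), ph t.succ = i := by
    intro i
    simp only [hS, Finset.mem_image, Finset.mem_univ, true_and]
  have h0S : ph 0 ∉ S := by
    rw [hSmem]
    rintro ⟨t, ht⟩
    exact Fin.succ_ne_zero t (hph ht)
  have h0U : ph 0 ∉ U := by
    rw [hUmem]
    intro h
    exact h 0 rfl
  have hSU : Disjoint S U := by
    rw [Finset.disjoint_left]
    intro i hi hi'
    obtain ⟨t, ht⟩ := (hSmem i).mp hi
    exact (hUmem i).mp hi' _ ht
  have hcases : ∀ i, i = ph 0 ∨ i ∈ S ∨ i ∈ U := by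
    intro i
    by_cases h : ∀ t, ph t ≠ i
    · exact Or.inr (Or.inr ((hUmem i).mpr h))
    · push Not at h
      obtain ⟨t, ht⟩ := h
      induction t using Fin.cases with
      | zero => exact Or.inl ht.symm
      | succ t => exact Or.inr (Or.inl ((hSmem i).mpr ⟨t, ht⟩))
  have huniv : (Finset.univ : Finset (Fin (d + 1))) = insert (ph 0) (S ∪ U) := by
    ext i
    simp only [Finset.mem_univ, Finset.mem_insert, Finset.mem_union, true_iff]
    exact hcases i
  let α : Fin (d + 1) → ℝ := fun i => if i = ph 0 then A0 else Q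
  let β : Fin (d + 1) → ℝ := fun i => if i = ph 0 then δ else if i ∈ S then D else I
  have hα : ∀ i, |M i 0| ≤ α i := by
    intro i
    by_cases h : i = ph 0
    · simp only [α, h, if_true]; exact hA0
    · simp only [α, h, if_false]
      rcases hcases i with h1 | h1 | h1
      · exact absurd h1 h
      · obtain ⟨t, ht⟩ := (hSmem i).mp h1
        rw [← ht]
        exact (hW0 t).trans hQ
      · exact hT0 i ((hUmem i).mp h1)
  have hβ : ∀ i m, m ≠ 0 → |M i m| ≤ β i := by
    intro i m hm
    by_cases h : i = ph 0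
    · simp only [β, h, if_true]; exact hb m hm
    · simp only [β, h, if_false]
      by_cases h2 : i ∈ S
      · simp only [h2, if_true]
        obtain ⟨t, ht⟩ := (hSmem i).mp h2
        rw [← ht]
        exact hW t m hm
      · simp only [h2, if_false]
        rcases hcases i with h1 | h1 | h1
        · exact absurd h1 h
        · exact absurd h1 h2
        · exact hT i ((hUmem i).mp h1) m hm
  refine (det_bound M α β hα hβ).trans ?_
  apply mul_le_mul_of_nonneg_left _ (by positivity)
  have hβS : ∀ l ∈ S, β l = D := by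
    intro l hl
    have : l ≠ ph 0 := fun h => h0S (h ▸ hl)
    simp only [β, this, if_false, hl, if_true]
  have hβU : ∀ l ∈ U, β l = I := by
    intro l hl
    have h1 : l ≠ ph 0 := fun h => h0U (h ▸ hl)
    have h2 : l ∉ S := fun h => (Finset.disjoint_left.mp hSU h) hl
    simp only [β, h1, if_false, h2]
  have hβ0 : β (ph 0) = δ := by simp [β]
  have hβnn : ∀ l, 0 ≤ β l := by
    intro l
    rcases hcases l with h | h | h
    · rw [h, hβ0]; exact hδ0
    · rw [hβS l h]; linarith
    · rw [hβU l h]; exact hI0
  -- the term of `ph 0`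
  have hterm0 : ∏ l ∈ Finset.univ.erase (ph 0), β l = D ^ (r + 1) * I ^ (d + 1 - (r + 2)) := by
    rw [huniv, Finset.erase_insert (by
      rw [Finset.mem_union]; push Not; exact ⟨h0S, h0U⟩), Finset.prod_union hSU,
      Finset.prod_congr rfl hβS, Finset.prod_congr rfl hβU, Finset.prod_const, Finset.prod_const,
      hScard, hUcard]
  have hterm : ∀ i, i ≠ ph 0 → ∏ l ∈ Finset.univ.erase i, β l ≤
      δ * (D ^ (r + 1) * I ^ (d + 1 - (r + 2) - 1)) := by
    intro i hi
    have h1 : Finset.univ.erase i = insert (ph 0) (S.erase i ∪ U.erase i) := by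
      rw [huniv, Finset.erase_insert_of_ne (Ne.symm hi), Finset.erase_union_distrib]
    have h2 : ph 0 ∉ S.erase i ∪ U.erase i := by
      rw [Finset.mem_union]
      push Not
      exact ⟨fun h => h0S (Finset.mem_of_mem_erase h), fun h => h0U (Finset.mem_of_mem_erase h)⟩
    have h3 : Disjoint (S.erase i) (U.erase i) :=
      Finset.disjoint_of_subset_left (Finset.erase_subset _ _)
        (Finset.disjoint_of_subset_right (Finset.erase_subset _ _) hSU)
    rw [h1, Finset.prod_insert h2, hβ0, Finset.prod_union h3,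
      Finset.prod_congr rfl (fun l hl => hβS l (Finset.mem_of_mem_erase hl)),
      Finset.prod_congr rfl (fun l hl => hβU l (Finset.mem_of_mem_erase hl)),
      Finset.prod_const, Finset.prod_const]
    apply mul_le_mul_of_nonneg_left _ hδ0
    have h4 : (S.erase i).card ≤ r + 1 := hScard ▸ Finset.card_le_card (Finset.erase_subset _ _)
    have h5 : d + 1 - (r + 2) - 1 ≤ (U.erase i).card := by
      rw [← hUcard]; exact Finset.pred_card_le_card_erase
    exact mul_le_mul (pow_le_pow_right₀ hD h4) (pow_le_pow_of_le_one hI0 hI1 h5)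
      (pow_nonneg hI0 _) (pow_nonneg (by linarith) _)
  rw [← Finset.add_sum_erase _ _ (Finset.mem_univ (ph 0))]
  apply add_le_add
  · rw [hterm0]
    simp [α]
  · have h1 : ∀ i ∈ Finset.univ.erase (ph 0), α i * ∏ l ∈ Finset.univ.erase i, β l ≤
        Q * (δ * (D ^ (r + 1) * I ^ (d + 1 - (r + 2) - 1))) := by
      intro i hi
      have hi' := Finset.ne_of_mem_erase hi
      have : α i = Q := by simp only [α, hi', if_false]
      rw [this]
      exact mul_le_mul_of_nonneg_left (hterm i hi') (by linarith)
    refine (Finset.sum_le_card_nsmul _ _ _ h1).trans ?_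
    rw [nsmul_eq_mul]
    apply mul_le_mul_of_nonneg_right
    · rw [Finset.card_erase_of_mem (Finset.mem_univ _), Finset.card_univ, Fintype.card_fin,
        Nat.add_sub_cancel]
      linarith
    · have : 0 ≤ D := by linarith
      have : 0 ≤ Q := by linarith
      positivity

end Pool.Agent.Helper32.ExpN
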